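import Pool.Agent.Y220.PB.S4a

/-! Project PB, task S4: the reverse Euler inequality. -/

set_option autoImplicit false

universe u

namespace Pool.Agent.Y220.PB

open Set Topology Metric
open Pool.Agent.Helper775.Surf Pool.Agent.Helper775.Clo Pool.Agent.Y217.PB
open scoped InnerProductSpace

variable {M : Type u} [TopologicalSpace M]

/-! ### components of the complement of a closed set -/

theorem comps_open [LocallyConnectedSpace M] {G : Set M} (hG : IsClosed G) {C : Set M}
    (hC : C ∈ comps G) : IsOpen C := by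
  obtain ⟨x, _, rfl⟩ := hC
  exact hG.isOpen_compl.connectedComponentIn

theorem comps_sub {G : Set M} {C : Set M} (hC : C ∈ comps G) : C ⊆ Gᶜ := by
  obtain ⟨x, _, rfl⟩ := hC
  exact connectedComponentIn_subset _ _

theorem comps_nonempty {G : Set M} {C : Set M} (hC : C ∈ comps G) : ∃ x, x ∈ C := by
  obtain ⟨x, hx, rfl⟩ := hC
  exact ⟨x, mem_connectedComponentIn hx⟩

theorem comps_eq {G : Set M} {C C' : Set M} (hC : C ∈ comps G) (hC' : C' ∈ comps G) {x : M}
    (h : x ∈ C) (h' : x ∈ C') : C = C' := by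
  obtain ⟨y, _, rfl⟩ := hC
  obtain ⟨z, _, rfl⟩ := hC'
  rw [connectedComponentIn_eq h, connectedComponentIn_eq h']

theorem comps_closure [LocallyConnectedSpace M] {G : Set M} (hG : IsClosed G) {C : Set M}
    (hC : C ∈ comps G) {x : M} (hx : x ∈ closure C) (hxG : x ∉ G) : x ∈ C := by
  have h1 : connectedComponentIn Gᶜ x ∈ comps G := ⟨x, hxG, rfl⟩
  have h2 : x ∈ connectedComponentIn Gᶜ x := mem_connectedComponentIn hxG
  obtain ⟨z, hz, hzC⟩ := mem_closure_iff.1 hx _ (comps_open hG h1) h2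
  rw [comps_eq hC h1 hzC hz]
  exact h2

/-! ### classes trivial near the complement of a component are not essential in it -/

theorem not_ess_null [CompactSpace M] [T2Space M] [ConnectedSpace M] [LocallyConnectedSpace M]
    {N : ℕ} {f : M → EuclideanSpace ℝ (Fin N)} (S : CSetup f) {G : Set M} (hG : IsClosed G)
    {C : Set M} (hC : C ∈ comps G) {y : M} (hy : y ∈ C) {u : M → M → ZMod 2}
    (hu : Coc (C \ {y}) u) (hn : Null G u) : ¬ Ess y u := by
  classical
  obtain ⟨σ, hσ⟩ := hn
  have hCo := comps_open hG hC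
  intro hE
  have key : ∀ a ∈ C, ∀ b ∈ C, (fun a b => if a ∈ C ∧ b ∈ C then u a b + (σ a + σ b) else 0 :
      M → M → ZMod 2) a b = u a b + (σ a + σ b) := by
    intro a ha b hb
    simp only
    rw [if_pos ⟨ha, hb⟩]
  have hc : Coc ({y}ᶜ : Set M) (fun a b => if a ∈ C ∧ b ∈ C then u a b + (σ a + σ b) else 0) := by
    intro x hx
    by_cases hxC : x ∈ C
    · obtain ⟨W, hW, hW'⟩ := hu x ⟨hxC, hx⟩
      refine ⟨W ∩ C, Filter.inter_mem hW (hCo.mem_nhds hxC), fun a ha b hb c hc => ?_⟩
      rw [key a ha.2 b hb.2, key b hb.2 c hc.2, key a ha.2 c hc.2, ← hW' a ha.1 b hb.1 c hc.1]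
      generalize u a b = p
      generalize u b c = q
      generalize σ a = r
      generalize σ b = s
      generalize σ c = t
      revert p q r s t
      decide
    · have hz : ∃ W ∈ 𝓝 x, ∀ a ∈ W, ∀ b ∈ W, (fun a b => if a ∈ C ∧ b ∈ C then
          u a b + (σ a + σ b) else 0 : M → M → ZMod 2) a b = 0 := by
        by_cases hxG : x ∈ G
        · obtain ⟨W, hW, hW'⟩ := hσ x hxG
          refine ⟨W, hW, fun a ha b hb => ?_⟩
          simp only
          split_ifs
          · rw [hW' a ha b hb]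
            exact CharTwo.add_self_eq_zero _
          · rfl
        · have hxc : x ∉ closure C := fun h => hxC (comps_closure hG hC h hxG)
          refine ⟨(closure C)ᶜ, isClosed_closure.isOpen_compl.mem_nhds hxc, fun a ha b hb => ?_⟩
          simp only
          rw [if_neg]
          rintro ⟨h1, -⟩
          exact ha (subset_closure h1)
      obtain ⟨W, hW, hW'⟩ := hz
      refine ⟨W, hW, fun a ha b hb c hc => ?_⟩
      rw [hW' a ha b hb, hW' b hb c hc, hW' a ha c hc, add_zero]
  refine not_ess S hc ?_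
  intro W hW hnull
  obtain ⟨s, hs⟩ := hnull
  refine hE (W ∩ C) (Filter.inter_mem hW (hCo.mem_nhds hy)) ⟨fun a => s a + σ a, ?_⟩
  intro x hx
  obtain ⟨V, hV, hV'⟩ := hs x ⟨hx.1.1, hx.2⟩
  refine ⟨V ∩ C, Filter.inter_mem hV (hCo.mem_nhds hx.1.2), fun a ha b hb => ?_⟩
  have h1 := hV' a ha.1 b hb.1
  rw [key a ha.2 b hb.2] at h1
  show u a b = (s a + σ a) + (s b + σ b)
  revert h1
  generalize u a b = p
  generalize σ a = r
  generalize σ b = q
  generalize s a = t
  generalize s b = w
  revert p q r t w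
  decide

/-! ### glueing the closures of the components -/

theorem null_closures [CompactSpace M] [T2Space M] [LocallyConnectedSpace M] (hGl : JGlue.{u})
    {G : Set M} (hG : IsClosed G) (hfin : (comps G).Finite)
    (hac : ∀ C ∈ comps G, Acyc (closure C) ∧ IsPreconnected (closure C ∩ G))
    {u : M → M → ZMod 2} (hu : Coc univ u) (hn : Null G u) : Null univ u := by
  classical
  have key : ∀ T : Set (Set M), T.Finite → T ⊆ comps G → Null (G ∪ ⋃ C ∈ T, closure C) u := by
    intro T hT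
    induction T, hT using Set.Finite.induction_on with
    | empty =>
      intro _
      refine hn.mono ?_
      intro x hx
      simpa using hx
    | @insert C T hCT hT ih =>
      intro hsub
      obtain ⟨s, hs⟩ := ih (fun c hc => hsub (mem_insert_of_mem _ hc))
      have hC : C ∈ comps G := hsub (mem_insert _ _)
      obtain ⟨hA, hP⟩ := hac C hC
      obtain ⟨s', hs'⟩ := hA u (hu.mono (subset_univ _))
      have hXc : IsClosed (G ∪ ⋃ C ∈ T, closure C) :=
        hG.union (hT.isClosed_biUnion fun _ _ => isClosed_closure)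
      have hint : ∀ x, x ∈ (G ∪ ⋃ C ∈ T, closure C) ∩ closure C → x ∈ closure C ∩ G := by
        rintro x ⟨hx, hxC⟩
        refine ⟨hxC, ?_⟩
        rcases hx with hx | hx
        · exact hx
        · by_contra hxG
          simp only [mem_iUnion] at hx
          obtain ⟨C', hC', hx'⟩ := hx
          have h1 := comps_closure hG hC hxC hxG
          have h2 := comps_closure hG (hsub (mem_insert_of_mem _ hC')) hx' hxG
          have h3 := comps_eq hC (hsub (mem_insert_of_mem _ hC')) h1 h2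
          rw [h3] at hCT
          exact hCT hC'
      obtain ⟨k, hk⟩ := triv_uniq hP (hs.mono (fun x hx => Or.inl hx.2))
        (hs'.mono (fun x hx => hx.1))
      obtain ⟨σ, hσ, _, _⟩ := hGl M (G ∪ ⋃ C ∈ T, closure C) (closure C) u s (fun x => s' x + k)
        hXc isClosed_closure hs (hs'.add_const k) (by
          intro x hx
          have h1 := hk x (hint x hx)
          show s x = s' x + k
          rw [← h1]
          generalize s x = p
          generalize s' x = q
          revert p q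
          decide)
      refine ⟨σ, hσ.mono ?_⟩
      intro x hx
      rcases hx with hx | hx
      · exact Or.inl (Or.inl hx)
      · simp only [mem_iUnion] at hx
        obtain ⟨C', hC', hx'⟩ := hx
        rcases hC' with rfl | hC'
        · exact Or.inr hx'
        · refine Or.inl (Or.inr ?_)
          simp only [mem_iUnion]
          exact ⟨C', hC', hx'⟩
  refine (key (comps G) hfin (subset_refl _)).mono ?_
  intro x _
  by_cases hx : x ∈ G
  · exact Or.inl hx
  · refine Or.inr ?_
    simp only [mem_iUnion]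
    exact ⟨connectedComponentIn Gᶜ x, ⟨x, hx, rfl⟩, subset_closure (mem_connectedComponentIn hx)⟩

/-! ### the star -/

section star

variable {ι κ : Type} {Γ : FGraph M ι κ}

theorem star_ends (hΓ : Γ.Good) {j i : ι} {k : κ}
    (hk : ({Γ.i0 k, Γ.i1 k} : Set ι) = {j, i}) :
    ∃ a b : M, a ∈ Γ.Z j ∧ b ∈ Γ.Z i ∧ a ∈ Γ.A k ∧ b ∈ Γ.A k ∧
      ∀ x ∈ Γ.A k, (∃ i', x ∈ Γ.Z i') → x = a ∨ x = b := by
  rcases Set.pair_eq_pair_iff.1 hk with ⟨h0, h1⟩ | ⟨h0, h1⟩
  · refine ⟨Γ.p0 k, Γ.p1 k, ?_, ?_, (hΓ.arc k).p_mem, (hΓ.arc k).q_mem, ?_⟩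
    · rw [← h0]; exact hΓ.m0 k
    · rw [← h1]; exact hΓ.m1 k
    · rintro x hx ⟨i', hi'⟩
      exact hΓ.inter k i' x hx hi'
  · refine ⟨Γ.p1 k, Γ.p0 k, ?_, ?_, (hΓ.arc k).q_mem, (hΓ.arc k).p_mem, ?_⟩
    · rw [← h1]; exact hΓ.m1 k
    · rw [← h0]; exact hΓ.m0 k
    · rintro x hx ⟨i', hi'⟩
      exact (hΓ.inter k i' x hx hi').symm

/-- the partial star -/
def Star (Γ : FGraph M ι κ) (j : ι) (K : {i : ι // i ≠ j} → κ) (F : Finset {i : ι // i ≠ j}) :
    Set M :=
  Γ.Z j ∪ ⋃ i ∈ F, (Γ.A (K i) ∪ Γ.Z i.1)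

omit [TopologicalSpace M] in
theorem mem_star {j : ι} {K : {i : ι // i ≠ j} → κ} {F : Finset {i : ι // i ≠ j}} {x : M} :
    x ∈ Star Γ j K F ↔ x ∈ Γ.Z j ∨ ∃ i ∈ F, x ∈ Γ.A (K i) ∨ x ∈ Γ.Z i.1 := by
  simp only [Star, mem_union, mem_iUnion, exists_prop]

omit [TopologicalSpace M] in
theorem star_inj {j : ι} {K : {i : ι // i ≠ j} → κ}
    (hK : ∀ i, ({Γ.i0 (K i), Γ.i1 (K i)} : Set ι) = {j, i.1}) (i i' : {i : ι // i ≠ j})
    (h : K i = K i') : i = i' := by
  have h1 := hK i
  rw [h, hK i'] at h1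
  rcases Set.pair_eq_pair_iff.1 h1 with ⟨_, h2⟩ | ⟨h2, h3⟩
  · exact Subtype.ext h2.symm
  · exact absurd h2.symm i.2

theorem star_good [CompactSpace M] [T2Space M] [TopologicalSpace.MetrizableSpace M]
    (hU : JUnion.{u}) (hA : JArc.{u}) (hΓ : Γ.Good) {j : ι} {K : {i : ι // i ≠ j} → κ}
    (hK : ∀ i, ({Γ.i0 (K i), Γ.i1 (K i)} : Set ι) = {j, i.1}) (F : Finset {i : ι // i ≠ j}) :
    IsClosed (Star Γ j K F) ∧ IsPreconnected (Star Γ j K F) ∧ Acyc (Star Γ j K F) := by
  classical
  have hdis : ∀ i i' x, x ∈ Γ.Z i → x ∈ Γ.Z i' → i = i' := by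
    intro i i' x h h'
    by_contra hne
    exact Set.disjoint_left.1 (hΓ.disj i i' hne) h h'
  induction F using Finset.induction_on with
  | empty =>
    have e : Star Γ j K ∅ = Γ.Z j := by
      ext x
      rw [mem_star]
      simp
    rw [e]
    exact ⟨(hΓ.fat j).closed, (hΓ.fat j).conn, (hΓ.fat j).acyc⟩
  | @insert i F hiF ih =>
    obtain ⟨h1, h2, h3⟩ := ih
    have hij : i.1 ≠ j := i.2
    obtain ⟨a, b, haj, hbi, haA, hbA, hab⟩ := star_ends hΓ (hK i)
    obtain ⟨_, hAc, hAa, _⟩ := hA M (Γ.A (K i)) _ _ (hΓ.arc (K i))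
    have hZi := hΓ.fat i.1
    have hFi : ∀ i' ∈ F, i.1 ≠ i'.1 := by
      intro i' hi' h
      rw [Subtype.ext h] at hiF
      exact hiF hi'
    -- the star does not meet the new vertex
    have hsep : ∀ x, x ∈ Star Γ j K F → x ∈ Γ.Z i.1 → False := by
      intro x hx hxi
      rcases mem_star.1 hx with hx | ⟨i', hi', hx | hx⟩
      · exact hij (hdis i.1 j x hxi hx)
      · obtain ⟨a', b', haj', hbi', _, _, hab'⟩ := star_ends hΓ (hK i')
        rcases hab' x hx ⟨i.1, hxi⟩ with h | h
        · rw [h] at hxi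
          exact hij (hdis i.1 j _ hxi haj')
        · rw [h] at hxi
          exact hFi i' hi' (hdis i.1 i'.1 _ hxi hbi')
      · exact hFi i' hi' (hdis i.1 i'.1 _ hxi hx)
    have haS : a ∈ Star Γ j K F := mem_star.2 (Or.inl haj)
    have hint1 : Star Γ j K F ∩ Γ.A (K i) = {a} := by
      apply Subset.antisymm
      · rintro x ⟨hx, hxA⟩
        have hz : ∃ i', x ∈ Γ.Z i' := by
          rcases mem_star.1 hx with hx | ⟨i', hi', hx | hx⟩
          · exact ⟨j, hx⟩
          · have hne : K i' ≠ K i := by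
              intro h
              exact hFi i' hi' (congrArg Subtype.val (star_inj hK i' i h)).symm
            exact hΓ.ee (K i') (K i) x hne hx hxA
          · exact ⟨i'.1, hx⟩
        rcases hab x hxA hz with h | h
        · exact h
        · exfalso
          rw [h] at hx
          exact hsep b hx hbi
      · rintro x rfl
        exact ⟨haS, haA⟩
    have hc1 : IsClosed (Star Γ j K F ∪ Γ.A (K i)) := h1.union (hΓ.arc (K i)).closed
    have hp1 : IsPreconnected (Star Γ j K F ∪ Γ.A (K i)) := IsPreconnected.union a haS haA h2 hAc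
    have ha1 : Acyc (Star Γ j K F ∪ Γ.A (K i)) :=
      hU M _ _ h1 (hΓ.arc (K i)).closed h3 hAa (by rw [hint1]; exact isPreconnected_singleton)
    have hint2 : (Star Γ j K F ∪ Γ.A (K i)) ∩ Γ.Z i.1 = {b} := by
      apply Subset.antisymm
      · rintro x ⟨hx | hx, hxi⟩
        · exact (hsep x hx hxi).elim
        · rcases hab x hx ⟨i.1, hxi⟩ with h | h
          · exfalso
            rw [h] at hxi
            exact hij (hdis i.1 j _ hxi haj)
          · exact h
      · rintro x rfl
        exact ⟨Or.inr hbA, hbi⟩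
    have e : Star Γ j K (insert i F) = (Star Γ j K F ∪ Γ.A (K i)) ∪ Γ.Z i.1 := by
      ext x
      simp only [mem_union, mem_star, Finset.mem_insert]
      constructor
      · rintro (h | ⟨i', rfl | hi', h⟩)
        · exact Or.inl (Or.inl (Or.inl h))
        · rcases h with h | h
          · exact Or.inl (Or.inr h)
          · exact Or.inr h
        · exact Or.inl (Or.inl (Or.inr ⟨i', hi', h⟩))
      · rintro (((h | ⟨i', hi', h⟩) | h) | h)
        · exact Or.inl h
        · exact Or.inr ⟨i', Or.inr hi', h⟩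
        · exact Or.inr ⟨i, Or.inl rfl, Or.inl h⟩
        · exact Or.inr ⟨i, Or.inl rfl, Or.inr h⟩
    rw [e]
    refine ⟨hc1.union hZi.closed, IsPreconnected.union b (Or.inr hbA) hbi hp1 hZi.conn, ?_⟩
    exact hU M _ _ hc1 hZi.closed ha1 hZi.acyc (by rw [hint2]; exact isPreconnected_singleton)

theorem z2c : ∀ a b c d k a' b' : ZMod 2, (a + b) + (c + d) = 0 → a + a' = k → c + b' = k →
    a' = b + (a' + b) ∧ b' = d + (a' + b) := by decide

/-- jumps detect coboundaries -/
theorem det_null [CompactSpace M] [T2Space M] (hGl : JGlue.{u}) [Fintype κ] (hΓ : Γ.Good)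
    {St : Set M} (hStc : IsClosed St) (hStp : IsPreconnected St) (hSta : Acyc St)
    (hZ : ∀ i, Γ.Z i ⊆ St) (hStG : St ⊆ Γ.pts) (S : Finset κ) (hS : ∀ k ∈ S, Γ.A k ⊆ St)
    (hS' : ∀ k, k ∉ S → ∀ x ∈ Γ.A k, x ∈ St → x = Γ.p0 k ∨ x = Γ.p1 k)
    {u : M → M → ZMod 2} (hu : Coc Γ.pts u)
    (hj : ∀ k, k ∉ S → Jp St (Γ.A k) (Γ.p0 k) (Γ.p1 k) u 0) : Null Γ.pts u := by
  classical
  obtain ⟨s0, hs0⟩ := hSta u (hu.mono hStG)
  have key : ∀ F : Finset κ, ∃ σ : M → ZMod 2, Triv (St ∪ ⋃ k ∈ F, Γ.A k) u σ ∧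
      ∀ x ∈ St, σ x = s0 x := by
    intro F
    induction F using Finset.induction_on with
    | empty =>
      refine ⟨s0, ?_, fun x _ => rfl⟩
      refine hs0.mono ?_
      intro x hx
      simpa using hx
    | @insert k F hkF ih =>
      obtain ⟨σ, hσ, hσ0⟩ := ih
      have e : (St ∪ ⋃ l ∈ insert k F, Γ.A l) = (St ∪ ⋃ l ∈ F, Γ.A l) ∪ Γ.A k := by
        ext x
        simp only [mem_union, mem_iUnion, Finset.mem_insert, exists_prop]
        constructor
        · rintro (h | ⟨l, rfl | hl, h⟩)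
          · exact Or.inl (Or.inl h)
          · exact Or.inr h
          · exact Or.inl (Or.inr ⟨l, hl, h⟩)
        · rintro ((h | ⟨l, hl, h⟩) | h)
          · exact Or.inl h
          · exact Or.inr ⟨l, Or.inr hl, h⟩
          · exact Or.inr ⟨k, Or.inl rfl, h⟩
      by_cases hk : k ∈ S
      · refine ⟨σ, ?_, hσ0⟩
        rw [e]
        refine hσ.mono ?_
        rintro x (hx | hx)
        · exact hx
        · exact Or.inl (hS k hk hx)
      · obtain ⟨s, s', hs, hs', hjk⟩ := hj k hk
        obtain ⟨c, hc⟩ := triv_uniq hStp hs hs0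
        have hp0 : Γ.p0 k ∈ St := hZ _ (hΓ.m0 k)
        have hp1 : Γ.p1 k ∈ St := hZ _ (hΓ.m1 k)
        obtain ⟨e0, e1⟩ := z2c _ _ _ _ c _ _ hjk (hc _ hp0) (hc _ hp1)
        have hXc : IsClosed (St ∪ ⋃ l ∈ F, Γ.A l) := hStc.union
          (F.finite_toSet.isClosed_biUnion fun l _ => (hΓ.arc l).closed)
        have hint : ∀ x ∈ (St ∪ ⋃ l ∈ F, Γ.A l) ∩ Γ.A k, x = Γ.p0 k ∨ x = Γ.p1 k := by
          rintro x ⟨hx, hxk⟩
          rcases hx with hx | hx
          · exact hS' k hk x hxk hx
          · simp only [mem_iUnion] at hx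
            obtain ⟨l, hl, hxl⟩ := hx
            have hne : l ≠ k := by
              rintro rfl
              exact hkF hl
            obtain ⟨i, hi⟩ := hΓ.ee l k x hne hxl hxk
            exact hΓ.inter k i x hxk hi
        obtain ⟨τ, hτ, hτ1, _⟩ := hGl M _ _ u σ (fun x => s' x + (s0 (Γ.p0 k) + s' (Γ.p0 k)))
          hXc (hΓ.arc k).closed hσ (hs'.add_const _) (by
            intro x hx
            rcases hint x hx with rfl | rfl
            · rw [hσ0 _ hp0]
              exact e0
            · rw [hσ0 _ hp1]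
              exact e1)
        refine ⟨τ, ?_, ?_⟩
        · rw [e]
          exact hτ
        · intro x hx
          rw [hτ1 x (Or.inl hx)]
          exact hσ0 x hx
  obtain ⟨σ, hσ, _⟩ := key Finset.univ
  refine ⟨σ, hσ.mono ?_⟩
  rintro x (hx | hx)
  · simp only [mem_iUnion] at hx
    obtain ⟨i, hi⟩ := hx
    exact Or.inl (hZ i hi)
  · simp only [mem_iUnion] at hx
    obtain ⟨k, hk⟩ := hx
    refine Or.inr ?_
    simp only [mem_iUnion]
    exact ⟨k, Finset.mem_univ _, hk⟩

end star

/-! ### the main inequality, for a family of independent classes -/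

theorem pts_closed [T2Space M] {ι κ : Type} [Finite ι] [Finite κ] {Γ : FGraph M ι κ}
    (hΓ : Γ.Good) : IsClosed Γ.pts :=
  (isClosed_iUnion_of_finite fun i => (hΓ.fat i).closed).union
    (isClosed_iUnion_of_finite fun k => (hΓ.arc k).closed)

theorem main_ineq [CompactSpace M] [T2Space M] [TopologicalSpace.MetrizableSpace M]
    [LocallyConnectedSpace M]
    (hGl : JGlue.{u}) (hU : JUnion.{u}) (hA : JArc.{u}) {ι κ : Type} [Fintype ι] [Fintype κ]
    {Γ : FGraph M ι κ} (hΓ : Γ.Good) (hfin : (comps Γ.pts).Finite) {j : ι}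
    (hst : ∀ i, i ≠ j → ∃ k, ({Γ.i0 k, Γ.i1 k} : Set ι) = {j, i})
    (hac : ∀ C ∈ comps Γ.pts, Acyc (closure C) ∧ IsPreconnected (closure C ∩ Γ.pts))
    {J : Type u} [Fintype J] (v : J → M → M → ZMod 2) (hv : ∀ j, Coc Γ.pts (v j))
    (hind : ∀ (t : M → M → ZMod 2) (c : J → ZMod 2), Coc univ t →
      Null Γ.pts (t + ∑ j, c j • v j) → c = 0) :
    betti1 M + Fintype.card J + Fintype.card ι ≤ Fintype.card κ + 1 := by
  classical
  choose K' hK' using hst
  obtain ⟨K, hK⟩ : ∃ K : {i : ι // i ≠ j} → κ,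
      ∀ i, ({Γ.i0 (K i), Γ.i1 (K i)} : Set ι) = {j, i.1} :=
    ⟨fun i => K' i.1 i.2, fun i => hK' i.1 i.2⟩
  obtain ⟨hc, hp, ha⟩ := star_good hU hA hΓ hK Finset.univ
  have hZ : ∀ i, Γ.Z i ⊆ Star Γ j K Finset.univ := by
    intro i x hx
    by_cases hi : i = j
    · rw [hi] at hx
      exact mem_star.2 (Or.inl hx)
    · exact mem_star.2 (Or.inr ⟨⟨i, hi⟩, Finset.mem_univ _, Or.inr hx⟩)
  have hStG : Star Γ j K Finset.univ ⊆ Γ.pts := by
    intro x hx
    rcases mem_star.1 hx with h | ⟨i, _, h | h⟩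
    · exact Or.inl (mem_iUnion.2 ⟨j, h⟩)
    · exact Or.inr (mem_iUnion.2 ⟨K i, h⟩)
    · exact Or.inl (mem_iUnion.2 ⟨i.1, h⟩)
  have hAG : ∀ k, Γ.A k ⊆ Γ.pts := fun k x hx => Or.inr (mem_iUnion.2 ⟨k, hx⟩)
  have hcardS : (Finset.univ.image K).card + 1 = Fintype.card ι := by
    rw [Finset.card_image_of_injective _ (fun i i' h => star_inj hK i i' h), Finset.card_univ,
      Fintype.card_subtype_compl, Fintype.card_subtype_eq]
    have : 0 < Fintype.card ι := Fintype.card_pos_iff.2 ⟨j⟩
    omega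
  have hS : ∀ k ∈ Finset.univ.image K, Γ.A k ⊆ Star Γ j K Finset.univ := by
    intro k hk x hx
    obtain ⟨i, hi, rfl⟩ := Finset.mem_image.1 hk
    exact mem_star.2 (Or.inr ⟨i, hi, Or.inl hx⟩)
  have hS' : ∀ k, k ∉ Finset.univ.image K → ∀ x ∈ Γ.A k, x ∈ Star Γ j K Finset.univ →
      x = Γ.p0 k ∨ x = Γ.p1 k := by
    intro k hk x hx hxS
    rcases mem_star.1 hxS with h | ⟨i, hi, h | h⟩
    · exact hΓ.inter k j x hx h
    · have hne : K i ≠ k := by
        rintro rfl
        exact hk (Finset.mem_image_of_mem _ hi)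
      obtain ⟨i', hi'⟩ := hΓ.ee (K i) k x hne h hx
      exact hΓ.inter k i' x hx hi'
    · exact hΓ.inter k i.1 x hx h
  have key := lin_main (G := Γ.pts) (κ' := ↥((Finset.univ.image K)ᶜ : Finset κ)) (J := J)
    (fun k u c => Jp (Star Γ j K Finset.univ) (Γ.A k.1) (Γ.p0 k.1) (Γ.p1 k.1) u c)
    (fun k u hu => Jp.ex ha (hA M _ _ _ (hΓ.arc k.1)).2.2.1 (hu.mono hStG) (hu.mono (hAG k.1)))
    (fun k u c c' h h' => Jp.uniq hp (hA M _ _ _ (hΓ.arc k.1)).2.1 (hZ _ (hΓ.m0 k.1))
      (hZ _ (hΓ.m1 k.1)) (hΓ.arc k.1).p_mem (hΓ.arc k.1).q_mem h h')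
    (fun k u u' c c' h h' => h.add h')
    (by
      rintro k u ⟨s, hs⟩
      refine ⟨s, s, hs.mono (subset_univ _), hs.mono (subset_univ _), ?_⟩
      rw [CharTwo.add_self_eq_zero, CharTwo.add_self_eq_zero, add_zero])
    (by
      intro u hu hk
      refine det_null hGl hΓ hc hp ha hZ hStG (Finset.univ.image K) hS hS' hu ?_
      intro k hkS
      exact hk ⟨k, Finset.mem_compl.2 hkS⟩)
    (fun u hu hn => null_closures hGl (pts_closed hΓ) hfin hac hu hn)
    v hv hind
  rw [Fintype.card_coe, Finset.card_compl] at key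
  have hle : (Finset.univ.image K).card ≤ Fintype.card κ := Finset.card_le_univ _
  omega

theorem eulerLe (hGl : JGlue.{u}) (hU : JUnion.{u}) (hA : JArc.{u}) : JEulerLe.{u} := by
  classical
  intro M _ _ _ _ _ _ N f S ι κ _ _ Γ hΓ hfin hj hac
  obtain ⟨j, hst⟩ := hj
  have hGc := pts_closed hΓ
  by_cases hemp : comps Γ.pts = ∅
  · have h := main_ineq hGl hU hA hΓ hfin hst hac (J := PEmpty.{u+1}) (fun j => PEmpty.elim j)
      (fun j => PEmpty.elim j) (fun t c _ _ => by funext j; exact PEmpty.elim j)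
    rw [hemp, Set.ncard_empty]
    rw [Fintype.card_pempty] at h
    omega
  · obtain ⟨C₀, hC₀⟩ := Set.nonempty_iff_ne_empty.2 hemp
    have hpt : ∀ C : Set M, ∃ y : M, C ∈ comps Γ.pts → y ∈ C := by
      intro C
      by_cases hC : C ∈ comps Γ.pts
      · obtain ⟨y, hy⟩ := comps_nonempty hC
        exact ⟨y, fun _ => hy⟩
      · obtain ⟨y, _⟩ := comps_nonempty hC₀
        exact ⟨y, fun h => absurd h hC⟩
    choose y hy using hpt
    haveI : Fintype {C : Set M // C ∈ comps Γ.pts ∧ C ≠ C₀} :=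
      (hfin.subset (fun C hC => hC.1)).fintype
    have hcard : Fintype.card {C : Set M // C ∈ comps Γ.pts ∧ C ≠ C₀} + 1 =
        (comps Γ.pts).ncard := by
      have h1 : Fintype.card {C : Set M // C ∈ comps Γ.pts ∧ C ≠ C₀} =
          {C : Set M | C ∈ comps Γ.pts ∧ C ≠ C₀}.ncard := by
        rw [← Nat.card_eq_fintype_card]
        rfl
      have h2 : {C : Set M | C ∈ comps Γ.pts ∧ C ≠ C₀} = comps Γ.pts \ {C₀} := rfl
      rw [h1, h2]
      exact Set.ncard_sdiff_singleton_add_one hC₀ hfin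
    have hv : ∀ C : {C : Set M // C ∈ comps Γ.pts ∧ C ≠ C₀}, ∃ v : M → M → ZMod 2,
        Coc ({y C₀, y C.1}ᶜ : Set M) v ∧ Ess (y C.1) v := by
      intro C
      obtain ⟨v, h1, _, _, h4⟩ := pair_ex S.pt S.pun isOpen_univ isPreconnected_univ
        (y := y C₀) (y' := y C.1) (mem_univ _) (mem_univ _) (by
          intro h
          have h1 := hy C₀ hC₀
          rw [h] at h1
          exact C.2.2 (comps_eq C.2.1 hC₀ (hy C.1 C.2.1) h1))
      exact ⟨v, h1, h4⟩
    choose v hvc hve using hv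
    have hsum : ∀ (X : Set M) (T : Finset {C : Set M // C ∈ comps Γ.pts ∧ C ≠ C₀})
        (c : {C : Set M // C ∈ comps Γ.pts ∧ C ≠ C₀} → ZMod 2),
        (∀ C ∈ T, Coc X (v C)) → Coc X (∑ C ∈ T, c C • v C) := by
      intro X T c h
      have h1 : (∑ C ∈ T, c C • v C) ∈ CG X :=
        (CG X).sum_mem fun C hC => (CG X).smul_mem _ (h C hC)
      exact h1
    have hyG : ∀ C ∈ comps Γ.pts, y C ∉ Γ.pts := fun C hC => comps_sub hC (hy C hC)
    have h := main_ineq hGl hU hA hΓ hfin hst hac v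
      (by
        intro C
        refine (hvc C).mono ?_
        intro x hx hx'
        rcases hx' with h | h
        · rw [h] at hx
          exact hyG C₀ hC₀ hx
        · rw [mem_singleton_iff] at h
          rw [h] at hx
          exact hyG C.1 C.2.1 hx)
      (by
        intro t c ht hn
        by_contra hc
        obtain ⟨C, hC⟩ : ∃ C, c C ≠ 0 := by
          by_contra hcon
          push Not at hcon
          exact hc (funext hcon)
        have hC1 : c C = 1 := by
          revert hC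
          generalize c C = d
          revert d
          decide
        have hoff : ∀ (C' : {C : Set M // C ∈ comps Γ.pts ∧ C ≠ C₀}) (x : M), x ∈ C.1 →
            (C' = C → x ≠ y C.1) → x ∈ ({y C₀, y C'.1}ᶜ : Set M) := by
          intro C' x hx hne hx'
          rcases hx' with h | h
          · rw [h] at hx
            exact C.2.2 (comps_eq C.2.1 hC₀ hx (hy C₀ hC₀))
          · rw [mem_singleton_iff] at h
            have h1 : C' = C := by
              rw [h] at hx
              exact Subtype.ext (comps_eq C'.2.1 C.2.1 (hy C'.1 C'.2.1) hx)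
            apply hne h1
            rw [h, h1]
        have hne : ¬ Ess (y C.1) (t + ∑ C', c C' • v C') := by
          refine not_ess_null S hGc C.2.1 (hy C.1 C.2.1) ?_ hn
          refine (ht.mono (subset_univ _)).add (hsum _ _ _ ?_)
          intro C' _
          refine (hvc C').mono ?_
          rintro x ⟨hx, hxy⟩
          exact hoff C' x hx (fun _ => hxy)
        apply hne
        intro W hW hnull
        obtain ⟨O, hO, hyO, hOn⟩ := coc_null_at (y := y C.1)
          (w := t + ∑ C' ∈ Finset.univ.erase C, c C' • v C') (by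
            refine (ht.mono (subset_univ _)).add (hsum _ _ _ ?_)
            intro C' hC'
            refine (hvc C').mono ?_
            intro x hx
            rw [mem_singleton_iff] at hx
            rw [hx]
            exact hoff C' _ (hy C.1 C.2.1) (fun h => absurd h (Finset.ne_of_mem_erase hC')))
        refine hve C (W ∩ O) (Filter.inter_mem hW (hO.mem_nhds hyO)) ?_
        have h1 := (hnull.mono (Z' := (W ∩ O) \ {y C.1}) (fun x hx => ⟨hx.1.1, hx.2⟩)).add
          (hOn.mono (Z' := (W ∩ O) \ {y C.1}) (fun x hx => hx.1.2))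
        have h2 : (t + ∑ C', c C' • v C') + (t + ∑ C' ∈ Finset.univ.erase C, c C' • v C') = v C := by
          rw [← Finset.add_sum_erase Finset.univ (fun C' => c C' • v C') (Finset.mem_univ C), hC1,
            one_smul]
          have h3 : (t + (v C + ∑ C' ∈ Finset.univ.erase C, c C' • v C')) +
              (t + ∑ C' ∈ Finset.univ.erase C, c C' • v C') = v C + ((t + t) +
              ((∑ C' ∈ Finset.univ.erase C, c C' • v C') +
                ∑ C' ∈ Finset.univ.erase C, c C' • v C')) := by abel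
          rw [h3, add_self_co, add_self_co, add_zero, add_zero]
        rw [h2] at h1
        exact h1)
    omega

end Pool.Agent.Y220.PB
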