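import Pool.Agent.Y217.PB.Stm

/-! Project PB, task S4: jumps, the linear algebra. -/

set_option autoImplicit false

universe u

namespace Pool.Agent.Y220.PB

open Set Topology Metric
open Pool.Agent.Helper775.Surf Pool.Agent.Helper775.Clo Pool.Agent.Y217.PB
open scoped InnerProductSpace

section gen

variable {M : Type u} [TopologicalSpace M]

theorem z2a : ∀ p q r s t : ZMod 2, p + q = r → s + q = t → t + t = t → r = p + s := by decide

/-- a cocycle near a point is a coboundary near it -/
theorem coc_null_at {w : M → M → ZMod 2} {y : M} (h : Coc {y} w) :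
    ∃ O : Set M, IsOpen O ∧ y ∈ O ∧ Null O w := by
  obtain ⟨W, hW, hc⟩ := h y rfl
  have hyW : y ∈ W := mem_of_mem_nhds hW
  refine ⟨interior W, isOpen_interior, mem_interior_iff_mem_nhds.2 hW, fun a => w a y, ?_⟩
  intro x hx
  refine ⟨interior W, isOpen_interior.mem_nhds hx, fun a ha b hb => ?_⟩
  have ha' := interior_subset ha
  have hb' := interior_subset hb
  exact z2a _ _ _ _ _ (hc a ha' y hyW b hb') (hc b hb' y hyW b hb') (hc b hb' b hb' b hb')

/-- `c` is the jump of `u` between `p` and `q` relative to the sets `X` and `A` -/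
def Jp (X A : Set M) (p q : M) (u : M → M → ZMod 2) (c : ZMod 2) : Prop :=
  ∃ s s' : M → ZMod 2, Triv X u s ∧ Triv A u s' ∧ (s p + s' p) + (s q + s' q) = c

theorem z2b : ∀ a b a' b' k : ZMod 2, a + a' = k → b + b' = k → a + b = a' + b' := by decide

theorem Jp.uniq {X A : Set M} {p q : M} {u : M → M → ZMod 2} {c c' : ZMod 2}
    (hX : IsPreconnected X) (hA : IsPreconnected A) (hpX : p ∈ X) (hqX : q ∈ X) (hpA : p ∈ A)
    (hqA : q ∈ A) (h : Jp X A p q u c) (h' : Jp X A p q u c') : c = c' := by
  obtain ⟨s, r, hs, hr, e⟩ := h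
  obtain ⟨s', r', hs', hr', e'⟩ := h'
  obtain ⟨k, hk⟩ := triv_uniq hX hs hs'
  obtain ⟨k', hk'⟩ := triv_uniq hA hr hr'
  have e1 := z2b _ _ _ _ _ (hk p hpX) (hk q hqX)
  have e2 := z2b _ _ _ _ _ (hk' p hpA) (hk' q hqA)
  rw [← e, ← e']
  calc s p + r p + (s q + r q) = (s p + s q) + (r p + r q) := by ring
    _ = (s' p + s' q) + (r' p + r' q) := by rw [e1, e2]
    _ = s' p + r' p + (s' q + r' q) := by ring

theorem Jp.add {X A : Set M} {p q : M} {u u' : M → M → ZMod 2} {c c' : ZMod 2}
    (h : Jp X A p q u c) (h' : Jp X A p q u' c') : Jp X A p q (u + u') (c + c') := by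
  obtain ⟨s, r, hs, hr, e⟩ := h
  obtain ⟨s', r', hs', hr', e'⟩ := h'
  refine ⟨s + s', r + r', hs.add hs', hr.add hr', ?_⟩
  show ((s p + s' p) + (r p + r' p)) + ((s q + s' q) + (r q + r' q)) = c + c'
  rw [← e, ← e']
  ring

theorem Jp.ex {X A : Set M} {p q : M} {u : M → M → ZMod 2} (hX : Acyc X) (hA : Acyc A)
    (h : Coc X u) (h' : Coc A u) : ∃ c, Jp X A p q u c := by
  obtain ⟨s, hs⟩ := hX u h
  obtain ⟨s', hs'⟩ := hA u h'
  exact ⟨_, s, s', hs, hs', rfl⟩

end gen

/-- the linear algebra: a system of `κ'` jumps detecting coboundaries -/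
theorem lin_main {M : Type u} [TopologicalSpace M] {G : Set M} {κ' : Type} {J : Type u} [Fintype κ']
    [Fintype J] (P : κ' → (M → M → ZMod 2) → ZMod 2 → Prop)
    (hex : ∀ k u, Coc G u → ∃ c, P k u c)
    (hun : ∀ k u c c', P k u c → P k u c' → c = c')
    (hadd : ∀ k u u' c c', P k u c → P k u' c' → P k (u + u') (c + c'))
    (hnull : ∀ k u, Null univ u → P k u 0)
    (hdet : ∀ u, Coc G u → (∀ k, P k u 0) → Null G u)
    (hglob : ∀ u, Coc univ u → Null G u → Null univ u)
    (v : J → M → M → ZMod 2) (hv : ∀ j, Coc G (v j))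
    (hind : ∀ (t : M → M → ZMod 2) (c : J → ZMod 2), Coc univ t →
      Null G (t + ∑ j, c j • v j) → c = 0) :
    betti1 M + Fintype.card J ≤ Fintype.card κ' := by
  classical
  have hGc : ∀ u : CG G, Coc G u.1 := fun u => u.2
  choose F hF using fun (k : κ') (u : CG G) => hex k u.1 (hGc u)
  have hz : ∀ k u, P k u 0 → ∀ c, P k u c → c = 0 := fun k u h c h' => hun k u c 0 h' h
  let Φ' : CG G →+ (κ' → ZMod 2) :=
    AddMonoidHom.mk' (fun u k => F k u) (by
      intro u u'
      funext k
      exact hun k _ _ _ (hF k (u + u')) (hadd k _ _ _ _ (hF k u) (hF k u')))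
  let Φ : CG G →ₗ[ZMod 2] (κ' → ZMod 2) := Φ'.toZModLinearMap 2
  have hΦ : ∀ u k, Φ u k = F k u := fun u k => rfl
  have hle : CG (univ : Set M) ≤ CG G := fun u hu => Coc.mono hu (subset_univ _)
  let φ₁ : CG (univ : Set M) →ₗ[ZMod 2] (κ' → ZMod 2) := Φ.comp (Submodule.inclusion hle)
  have hφ₁ : (NG (univ : Set M)).submoduleOf (CG (univ : Set M)) ≤ LinearMap.ker φ₁ := by
    intro u hu
    have hu' : Null univ u.1 := hu
    rw [LinearMap.mem_ker]
    funext k
    show F k (Submodule.inclusion hle u) = 0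
    exact hz k u.1 (hnull k u.1 hu') _ (hF k (Submodule.inclusion hle u))
  let Q := ↥(CG (univ : Set M)) ⧸ (NG (univ : Set M)).submoduleOf (CG (univ : Set M))
  let φ : Q →ₗ[ZMod 2] (κ' → ZMod 2) := Submodule.liftQ _ φ₁ hφ₁
  let v' : J → CG G := fun j => ⟨v j, hv j⟩
  let ψ : (J → ZMod 2) →ₗ[ZMod 2] CG G := Fintype.linearCombination (ZMod 2) v'
  have hψ : ∀ c : J → ZMod 2, ((ψ c : CG G) : M → M → ZMod 2) = ∑ j, c j • v j := by
    intro c
    show ((Fintype.linearCombination (ZMod 2) v' c : CG G) : M → M → ZMod 2) = _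
    rw [Fintype.linearCombination_apply]
    rw [AddSubmonoidClass.coe_finsetSum]
    rfl
  let Θ : (Q × (J → ZMod 2)) →ₗ[ZMod 2] (κ' → ZMod 2) := LinearMap.coprod φ (Φ.comp ψ)
  have hinj : Function.Injective Θ := by
    rw [← LinearMap.ker_eq_bot, LinearMap.ker_eq_bot']
    rintro ⟨q, c⟩ h
    obtain ⟨t, rfl⟩ := Submodule.Quotient.mk_surjective _ q
    have h1 : Φ (Submodule.inclusion hle t + ψ c) = 0 := by
      rw [map_add]
      have h2 : Θ (Submodule.Quotient.mk t, c) = Φ (Submodule.inclusion hle t) + Φ (ψ c) := by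
        show LinearMap.coprod φ (Φ.comp ψ) (Submodule.Quotient.mk t, c) = _
        rw [LinearMap.coprod_apply]
        rfl
      rw [← h2]
      exact h
    have hc0 : c = 0 := by
      apply hind t.1 c t.2
      have h3 := hdet (Submodule.inclusion hle t + ψ c : CG G).1 (Submodule.inclusion hle t + ψ c).2
        (by
          intro k
          have h4 := hF k (Submodule.inclusion hle t + ψ c)
          have h5 : F k (Submodule.inclusion hle t + ψ c) = 0 := congrFun h1 k
          rw [h5] at h4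
          exact h4)
      have h6 : (Submodule.inclusion hle t + ψ c : CG G).1 = t.1 + ∑ j, c j • v j := by
        rw [← hψ c]
        rfl
      rw [h6] at h3
      exact h3
    subst hc0
    have h7 : Φ (Submodule.inclusion hle t) = 0 := by
      rw [map_zero, add_zero] at h1
      exact h1
    have h8 : Null G t.1 := by
      apply hdet t.1 (hle t.2)
      intro k
      have h4 := hF k (Submodule.inclusion hle t)
      have h5 : F k (Submodule.inclusion hle t) = 0 := congrFun h7 k
      rw [h5] at h4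
      exact h4
    have h9 : Null univ t.1 := hglob t.1 t.2 h8
    have h10 : (Submodule.Quotient.mk t : Q) = 0 := by
      rw [Submodule.Quotient.mk_eq_zero]
      exact h9
    rw [h10]
    rfl
  have hfin : Module.Finite (ZMod 2) Q := by
    have hφinj : Function.Injective φ := by
      intro a b hab
      have h1 : Θ (a, 0) = Θ (b, 0) := by
        show LinearMap.coprod φ (Φ.comp ψ) (a, 0) = LinearMap.coprod φ (Φ.comp ψ) (b, 0)
        rw [LinearMap.coprod_apply, LinearMap.coprod_apply]
        show φ a + (Φ.comp ψ) 0 = φ b + (Φ.comp ψ) 0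
        rw [hab]
      exact (Prod.mk.inj (hinj h1)).1
    exact Module.Finite.of_injective φ hφinj
  have h := LinearMap.finrank_le_finrank_of_injective hinj
  rw [Module.finrank_prod, Module.finrank_fintype_fun_eq_card,
    Module.finrank_fintype_fun_eq_card] at h
  exact h

end Pool.Agent.Y220.PB
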